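import Pool.Agent.BES.Stmts
import Pool.Agent.Helper93_BEB.CFS

/-!
# Squad BES, row GSO: the entire functions `gs L`
-/

set_option autoImplicit false

noncomputable section

namespace Pool.Agent.BES.H5

open Set Filter Topology
open Pool.Agent.BES
open Pool.Agent.BEB (cf hs)

/-- The sum of the power series. -/
def pF (a : ℕ → ℝ) (y : ℝ) : ℝ := ∑' k : ℕ, a k * y ^ k

/-- The coefficients of the derivative. -/
def pD (a : ℕ → ℝ) (k : ℕ) : ℝ := ((k : ℝ) + 1) * a (k + 1)

/-- Infinite radius of convergence. -/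
def pP (a : ℕ → ℝ) : Prop := ∀ r : ℝ, 0 ≤ r → Summable fun k : ℕ => |a k| * r ^ k

theorem pP_sum {a : ℕ → ℝ} (h : pP a) (y : ℝ) : Summable fun k : ℕ => a k * y ^ k := by
  refine Summable.of_norm ?_
  refine (h |y| (abs_nonneg _)).congr fun k => ?_
  rw [norm_mul, Real.norm_eq_abs, Real.norm_eq_abs, abs_pow]

theorem pP_pD {a : ℕ → ℝ} (h : pP a) : pP (pD a) := by
  intro r hr
  have h1 := (summable_nat_add_iff 1).mpr (h (2 * (r + 1)) (by positivity))
  refine Summable.of_nonneg_of_le (fun k => by positivity) (fun k => ?_) h1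
  unfold pD
  rw [abs_mul, abs_of_nonneg (by positivity : (0 : ℝ) ≤ (k : ℝ) + 1), mul_pow]
  have h2 : (k : ℝ) + 1 ≤ 2 ^ (k + 1) := by
    have : k + 1 < 2 ^ (k + 1) := Nat.lt_two_pow_self
    exact_mod_cast this.le
  have h3 : r ^ k ≤ (r + 1) ^ (k + 1) := by
    calc r ^ k ≤ (r + 1) ^ k := pow_le_pow_left₀ hr (by linarith) k
      _ ≤ (r + 1) ^ (k + 1) := pow_le_pow_right₀ (by linarith) (by omega)
  calc ((k : ℝ) + 1) * |a (k + 1)| * r ^ k
      = |a (k + 1)| * (((k : ℝ) + 1) * r ^ k) := by ring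
    _ ≤ |a (k + 1)| * (2 ^ (k + 1) * (r + 1) ^ (k + 1)) :=
        mul_le_mul_of_nonneg_left (mul_le_mul h2 h3 (by positivity) (by positivity))
          (abs_nonneg _)

theorem pF_deriv {a : ℕ → ℝ} (h : pP a) (y : ℝ) : HasDerivAt (pF a) (pF (pD a) y) y := by
  obtain ⟨r, hr⟩ : ∃ r : ℝ, r = |y| + 1 := ⟨_, rfl⟩
  have hr0 : 0 < r := by rw [hr]; positivity
  have hy : y ∈ Metric.ball (0 : ℝ) r := by
    rw [mem_ball_zero_iff, Real.norm_eq_abs, hr]
    linarith
  have hu0 : Summable fun k : ℕ => |a (k + 1)| * (((k : ℝ) + 1) * r ^ k) := by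
    refine (pP_pD h r hr0.le).congr fun k => ?_
    unfold pD
    rw [abs_mul, abs_of_nonneg (by positivity : (0 : ℝ) ≤ (k : ℝ) + 1)]
    ring
  have hu : Summable fun k : ℕ => |a k| * ((k : ℝ) * r ^ (k - 1)) := by
    rw [← summable_nat_add_iff 1]
    refine hu0.congr fun k => ?_
    simp
  have key := hasDerivAt_tsum_of_isPreconnected (g := fun (k : ℕ) (z : ℝ) => a k * z ^ k)
    (g' := fun (k : ℕ) (z : ℝ) => a k * ((k : ℝ) * z ^ (k - 1)))
    hu Metric.isOpen_ball (convex_ball (0 : ℝ) r).isPreconnected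
    (fun k z _ => (hasDerivAt_pow k z).const_mul (a k))
    (fun k z hz => by
      rw [mem_ball_zero_iff] at hz
      rw [norm_mul, Real.norm_eq_abs]
      refine mul_le_mul_of_nonneg_left ?_ (abs_nonneg _)
      rw [norm_mul, norm_pow, Real.norm_eq_abs, Real.norm_eq_abs, Nat.abs_cast]
      exact mul_le_mul_of_nonneg_left
        (pow_le_pow_left₀ (abs_nonneg _) (by rw [← Real.norm_eq_abs]; exact hz.le) _)
        (Nat.cast_nonneg _))
    hy (pP_sum h y) hy
  have e : ∑' k : ℕ, a k * ((k : ℝ) * y ^ (k - 1)) = pF (pD a) y := by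
    have hs : Summable fun k : ℕ => a k * ((k : ℝ) * y ^ (k - 1)) := by
      rw [← summable_nat_add_iff 1]
      refine (pP_sum (pP_pD h) y).congr fun k => ?_
      unfold pD
      rw [Nat.add_sub_cancel]
      push_cast
      ring
    rw [hs.tsum_eq_zero_add]
    unfold pF pD
    rw [Nat.cast_zero, zero_mul, mul_zero, zero_add]
    refine tsum_congr fun k => ?_
    rw [Nat.add_sub_cancel]
    push_cast
    ring
  rw [← e]
  exact key

theorem pF_smooth (n : ℕ) : ∀ a : ℕ → ℝ, pP a → ContDiff ℝ (n : WithTop ℕ∞) (pF a) := by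
  induction n with
  | zero =>
    intro a h
    rw [Nat.cast_zero, contDiff_zero]
    exact continuous_iff_continuousAt.mpr fun y => (pF_deriv h y).continuousAt
  | succ n ih =>
    intro a h
    have h1 : deriv (pF a) = pF (pD a) := funext fun y => (pF_deriv h y).deriv
    rw [Nat.cast_succ, contDiff_succ_iff_deriv]
    refine ⟨fun y => (pF_deriv h y).differentiableAt, ?_, ?_⟩
    · intro h2
      exact absurd h2 (by simp)
    · rw [h1]
      exact ih _ (pP_pD h)

theorem gso : GsoStmt := by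
  intro L
  obtain ⟨c1, c2, c3, _, _⟩ := Pool.Agent.BEB.H93.cfs L
  have hgs : gs L = pF (cf L) := rfl
  have hP : pP (cf L) := by
    intro r hr
    refine (c1 (Real.sqrt r)).congr fun k => ?_
    rw [pow_mul, sq_abs, Real.sq_sqrt hr]
  have hd1 : deriv (gs L) = pF (pD (cf L)) := by
    rw [hgs]
    exact funext fun y => (pF_deriv hP y).deriv
  have hd2 : deriv (deriv (gs L)) = pF (pD (pD (cf L))) := by
    rw [hd1]
    exact funext fun y => (pF_deriv (pP_pD hP) y).deriv
  refine ⟨?_, ?_, ?_, ?_⟩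
  · rw [hgs]
    exact contDiff_infty.mpr fun n => pF_smooth n _ hP
  · rw [hgs]
    unfold pF
    rw [tsum_eq_single 0]
    · rw [c2, pow_zero, one_mul]
    · intro k hk
      rw [zero_pow hk, mul_zero]
  · intro x
    unfold hs gs
    refine tsum_congr fun k => ?_
    rw [pow_mul]
  · intro y
    rw [hd2, hd1, hgs]
    have hP1 := pP_pD hP
    have hP2 := pP_pD hP1
    have s1 := pP_sum hP1 y
    have s2 := pP_sum hP2 y
    have s3 : Summable fun k : ℕ => ((k : ℝ) * pD (cf L) k) * y ^ k := by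
      rw [← summable_nat_add_iff 1]
      refine (s2.mul_left y).congr fun k => ?_
      unfold pD
      push_cast
      ring
    have e1 : y * pF (pD (pD (cf L))) y = ∑' k : ℕ, ((k : ℝ) * pD (cf L) k) * y ^ k := by
      rw [s3.tsum_eq_zero_add, Nat.cast_zero, zero_mul, zero_mul, zero_add]
      unfold pF
      rw [← tsum_mul_left]
      refine tsum_congr fun k => ?_
      unfold pD
      push_cast
      ring
    have e2 : 4 * y * pF (pD (pD (cf L))) y + (4 * (L : ℝ) + 6) * pF (pD (cf L)) y =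
        ∑' k : ℕ, (4 * (((k : ℝ) * pD (cf L) k) * y ^ k) +
          (4 * (L : ℝ) + 6) * (pD (cf L) k * y ^ k)) := by
      rw [Summable.tsum_add (s3.mul_left 4) (s1.mul_left _), tsum_mul_left, tsum_mul_left, ← e1]
      unfold pF
      ring
    rw [e2]
    unfold pF
    rw [← tsum_neg]
    refine tsum_congr fun k => ?_
    have h := c3 k
    unfold pD
    have e3 : 4 * ((k : ℝ) * (((k : ℝ) + 1) * cf L (k + 1)) * y ^ k) +
        (4 * (L : ℝ) + 6) * (((k : ℝ) + 1) * cf L (k + 1) * y ^ k) =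
        (2 * ((k : ℝ) + 1) * (2 * ((k : ℝ) + 1) + 2 * L + 1) * cf L (k + 1)) * y ^ k := by
      ring
    rw [e3, h]
    ring

end Pool.Agent.BES.H5
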