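import Pool.Agent.BES.Stmts

/-!
# Squad BES, row NRI: square integrability of a power of the norm in the plane
-/

set_option autoImplicit false

noncomputable section

namespace Pool.Agent.BES.H5

open Set Filter Topology MeasureTheory
open Pool.Agent.BE01 Pool.Agent.BES

theorem nri : NriStmt := by
  intro μ R hμ
  have hmeas : AEStronglyMeasurable (fun x : En 2 => ‖x‖ ^ (μ - 1))
      (mu (Metric.ball (0 : En 2) R)) :=
    (measurable_norm.pow_const (μ - 1)).aestronglyMeasurable
  rw [memLp_two_iff_integrable_sq hmeas]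
  change IntegrableOn (fun x : En 2 => (‖x‖ ^ (μ - 1)) ^ 2) (Metric.ball (0 : En 2) R) volume
  rw [← integrable_indicator_iff measurableSet_ball]
  have h1 : (Metric.ball (0 : En 2) R).indicator (fun x : En 2 => (‖x‖ ^ (μ - 1)) ^ 2) =
      fun x : En 2 => (Iio R).indicator (fun y : ℝ => (y ^ (μ - 1)) ^ 2) ‖x‖ := by
    funext x
    by_cases hx : ‖x‖ < R
    · rw [indicator_of_mem (mem_ball_zero_iff.mpr hx), indicator_of_mem (mem_Iio.mpr hx)]
    · rw [indicator_of_notMem (fun h => hx (mem_ball_zero_iff.mp h)),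
        indicator_of_notMem (fun h => hx (mem_Iio.mp h))]
  rw [h1, integrable_fun_norm_addHaar volume
    (f := (Iio R).indicator (fun y : ℝ => (y ^ (μ - 1)) ^ 2))]
  have h2 : Module.finrank ℝ (En 2) = 2 := by simp [En]
  rw [h2]
  have h3 : EqOn ((Iio R).indicator (fun y : ℝ => y ^ (2 * μ - 1)))
      (fun y : ℝ => y ^ (2 - 1) • (Iio R).indicator (fun y : ℝ => (y ^ (μ - 1)) ^ 2) y)
      (Ioi 0) := by
    intro y hy
    have hy0 : 0 < y := hy
    by_cases hR : y < R
    · simp only [indicator_of_mem (mem_Iio.mpr hR), smul_eq_mul]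
      have e : y ^ (2 * μ - 1) = y ^ (1 : ℝ) * (y ^ (μ - 1)) ^ (2 : ℝ) := by
        rw [← Real.rpow_mul hy0.le, ← Real.rpow_add hy0]
        congr 1
        ring
      rw [e, Real.rpow_one, Real.rpow_two]
      norm_num
    · simp only [indicator_of_notMem (fun h => hR (mem_Iio.mp h)), smul_zero]
  refine IntegrableOn.congr_fun ?_ h3 measurableSet_Ioi
  rw [integrableOn_indicator_iff measurableSet_Iio]
  rcases le_or_gt R 0 with hR | hR
  · have h4 : Iio R ∩ Ioi (0 : ℝ) = ∅ := by
      ext y
      simp only [mem_inter_iff, mem_Iio, mem_Ioi, mem_empty_iff_false, iff_false, not_and, not_lt]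
      intro h
      linarith
    rw [h4]
    exact integrableOn_empty
  · have h5 : IntervalIntegrable (fun y : ℝ => y ^ (2 * μ - 1)) volume 0 R :=
      intervalIntegral.intervalIntegrable_rpow' (by linarith)
    rw [intervalIntegrable_iff_integrableOn_Ioc_of_le hR.le] at h5
    refine h5.mono_set fun y hy => ⟨hy.2, ?_⟩
    exact (mem_Iio.mp hy.1).le

end Pool.Agent.BES.H5
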